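import Pool.Agent.H83.X.T1

/-! Theorem X: the mean of a trigonometric polynomial is the constant coefficient (row MTV). -/

set_option autoImplicit false

open Filter Topology Finset

namespace Pool.Agent.H75.X

open Pool.Agent.H83.X
open Pool.Agent.H24.AG (ee)

/-- The mean of the powers of a number on the unit circle different from `1` tends to `0`. -/
theorem geom_mean {z : ℂ} (hz : ‖z‖ = 1) (h1 : z ≠ 1) :
    Tendsto (fun N : ℕ => (∑ n ∈ range N, z ^ n) / N) atTop (𝓝 0) := by
  have hz0 : 0 < ‖z - 1‖ := norm_pos_iff.2 (sub_ne_zero.2 h1)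
  have h2 : Tendsto (fun N : ℕ => (2 / ‖z - 1‖) / (N : ℝ)) atTop (𝓝 0) :=
    tendsto_const_div_atTop_nhds_zero_nat _
  refine squeeze_zero_norm (fun N => ?_) h2
  rw [geom_sum_eq h1, norm_div, norm_div, Complex.norm_natCast]
  refine div_le_div_of_nonneg_right ?_ (Nat.cast_nonneg N)
  refine div_le_div_of_nonneg_right ?_ hz0.le
  refine (norm_sub_le _ _).trans ?_
  rw [norm_pow, hz, one_pow, norm_one]
  norm_num

theorem ee_norm (x : ℝ) : ‖ee x‖ = 1 := by
  unfold ee
  have h : (2 * Real.pi * Complex.I * (x : ℂ) : ℂ) = ((2 * Real.pi * x : ℝ) : ℂ) * Complex.I := by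
    push_cast
    ring
  rw [h, Complex.norm_exp_ofReal_mul_I]

theorem ee_nat_mul (n : ℕ) (x : ℝ) : ee (n * x) = ee x ^ n := by
  unfold ee
  rw [← Complex.exp_nat_mul]
  congr 1
  push_cast
  ring

theorem ee_eq_one {x : ℝ} (h : ee x = 1) : ∃ l : ℤ, x = l := by
  unfold ee at h
  rw [Complex.exp_eq_one_iff] at h
  obtain ⟨l, hl⟩ := h
  refine ⟨l, ?_⟩
  have h2 : (2 * Real.pi * Complex.I : ℂ) ≠ 0 := by
    simp [Real.pi_ne_zero]
  have h3 : (x : ℂ) = (l : ℂ) := by
    have h4 : (2 * Real.pi * Complex.I : ℂ) * (x : ℂ) = (2 * Real.pi * Complex.I : ℂ) * (l : ℂ) := by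
      rw [hl]
      ring
    exact mul_left_cancel₀ h2 h4
  exact_mod_cast h3

theorem ev_single {a : ℕ} (α : Fin a → ℝ) (n : ℕ) (k : Fin a → ℤ) (c : ℂ) :
    ev α n (AddMonoidAlgebra.single k c) = c * ee (n * ∑ i, (k i : ℝ) * α i) := by
  unfold ev
  rw [AddMonoidAlgebra.lift_single]
  rfl

theorem pf_MTV : T_MTV := by
  intro a α x hα
  induction x using AddMonoidAlgebra.induction_linear with
  | zero =>
    simp
  | add x y hx hy =>
    have h1 := hx.add hy
    refine h1.congr fun N => ?_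
    rw [← add_div, ← Finset.sum_add_distrib]
    simp only [map_add]
  | single k c =>
    have h2 : ∀ N : ℕ, (∑ n ∈ range N, ev α n (AddMonoidAlgebra.single k c)) / (N : ℂ) =
        c * ((∑ n ∈ range N, ee (∑ i, (k i : ℝ) * α i) ^ n) / N) := by
      intro N
      simp only [ev_single, ee_nat_mul]
      rw [← Finset.mul_sum, mul_div_assoc]
    simp only [h2]
    rw [AddMonoidAlgebra.coeff_single]
    rcases eq_or_ne k 0 with hk | hk
    · subst hk
      have h3 : ee (∑ i, (((0 : Fin a → ℤ) i : ℤ) : ℝ) * α i) = 1 := by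
        simp [ee_zero]
      rw [h3, Finsupp.single_eq_same]
      have h4 : Tendsto (fun N : ℕ => c * ((∑ n ∈ range N, (1 : ℂ) ^ n) / N)) atTop (𝓝 (c * 1)) := by
        refine Tendsto.const_mul c ?_
        refine tendsto_const_nhds.congr' ?_
        filter_upwards [eventually_gt_atTop 0] with N hN
        have h5 : (N : ℂ) ≠ 0 := by exact_mod_cast hN.ne'
        simp only [one_pow, sum_const, card_range, nsmul_eq_mul, mul_one]
        rw [div_self h5]
      rw [mul_one] at h4
      exact h4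
    · have h3 : ee (∑ i, (k i : ℝ) * α i) ≠ 1 := by
        intro h4
        obtain ⟨l, hl⟩ := ee_eq_one h4
        exact hk (hα k l hl)
      have h5 := (geom_mean (ee_norm _) h3).const_mul c
      rw [Finsupp.single_eq_of_ne (Ne.symm hk)]
      rw [mul_zero] at h5
      exact h5

end Pool.Agent.H75.X
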