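import Pool.Agent.H83.X.T1

/-! Theorem X: the rearrangement inequality in terms of an integral (row RIE). -/

set_option autoImplicit false

open Filter Topology Finset

namespace Pool.Agent.H75.X

open Pool.Agent.H83.X

/-- Decreasing a function with values in `[0, 1]` to a given sum. -/
theorem adj_down {ι : Type} [Fintype ι] (a : ι → ℝ) (M : ℝ) (ha : ∀ x, 0 ≤ a x ∧ a x ≤ 1)
    (hM : 0 ≤ M) (hs : M ≤ ∑ x, a x) : ∃ a' : ι → ℝ, (∀ x, 0 ≤ a' x ∧ a' x ≤ 1) ∧
      ∑ x, a' x = M ∧ ∑ x, |a x - a' x| = |∑ x, a x - M| := by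
  rcases eq_or_lt_of_le (Finset.sum_nonneg fun x (_ : x ∈ univ) => (ha x).1) with h0 | h0
  · have hM0 : M = ∑ x, a x := le_antisymm hs (by linarith)
    refine ⟨a, ha, hM0.symm, ?_⟩
    rw [hM0]
    simp
  · set S : ℝ := ∑ x, a x with hS
    have hq0 : 0 ≤ M / S := div_nonneg hM h0.le
    have hq1 : M / S ≤ 1 := (div_le_one h0).2 hs
    have hle : ∀ x, a x * (M / S) ≤ a x := fun x => mul_le_of_le_one_right (ha x).1 hq1
    have hsum : ∑ x, a x * (M / S) = M := by
      rw [← Finset.sum_mul, ← hS]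
      field_simp
    refine ⟨fun x => a x * (M / S), fun x => ⟨mul_nonneg (ha x).1 hq0, (hle x).trans (ha x).2⟩,
      hsum, ?_⟩
    rw [abs_of_nonneg (by linarith : 0 ≤ S - M)]
    rw [Finset.sum_congr rfl fun x _ => abs_of_nonneg (sub_nonneg.2 (hle x)),
      Finset.sum_sub_distrib, hsum]

/-- Changing a function with values in `[0, 1]` to a given sum. -/
theorem adj {ι : Type} [Fintype ι] (a : ι → ℝ) (M : ℝ) (ha : ∀ x, 0 ≤ a x ∧ a x ≤ 1)
    (hM : 0 ≤ M) (hM2 : M ≤ Fintype.card ι) : ∃ a' : ι → ℝ, (∀ x, 0 ≤ a' x ∧ a' x ≤ 1) ∧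
      ∑ x, a' x = M ∧ ∑ x, |a x - a' x| = |∑ x, a x - M| := by
  rcases le_total M (∑ x, a x) with h | h
  · exact adj_down a M ha hM h
  · have hc : ∑ x, (1 - a x) = Fintype.card ι - ∑ x, a x := by
      rw [Finset.sum_sub_distrib]
      simp
    obtain ⟨b, hb1, hb2, hb3⟩ := adj_down (fun x => 1 - a x) (Fintype.card ι - M)
      (fun x => ⟨by linarith [(ha x).2], by linarith [(ha x).1]⟩) (by linarith)
      (by rw [hc]; linarith)
    refine ⟨fun x => 1 - b x, fun x => ⟨by linarith [(hb1 x).2], by linarith [(hb1 x).1]⟩, ?_, ?_⟩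
    · rw [Finset.sum_sub_distrib, hb2]
      simp
    · have h1 : ∀ x, |a x - (1 - b x)| = |1 - a x - b x| := by
        intro x
        rw [abs_sub_comm]
        congr 1
        ring
      simp only [h1]
      rw [hb3, hc, abs_sub_comm]
      congr 1
      ring

/-- Changing the functions changes the correlation by little. -/
theorem corr_diff {p : ℕ} [NeZero p] (f g f' g' : ZMod p → ℝ) (hg : ∀ x, |g x| ≤ 1)
    (hf' : ∀ x, |f' x| ≤ 1) (x : ZMod p) :
    |∑ y, f y * g (y + x) - ∑ y, f' y * g' (y + x)| ≤ ∑ y, |f y - f' y| + ∑ y, |g y - g' y| := by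
  have h1 : ∑ y, |g y - g' y| = ∑ y, |g (y + x) - g' (y + x)| :=
    (Equiv.sum_comp (Equiv.addRight x) (fun y => |g y - g' y|)).symm
  rw [h1, ← Finset.sum_sub_distrib, ← Finset.sum_add_distrib]
  refine (Finset.abs_sum_le_sum_abs _ _).trans (Finset.sum_le_sum fun y _ => ?_)
  have h2 : f y * g (y + x) - f' y * g' (y + x) =
      (f y - f' y) * g (y + x) + f' y * (g (y + x) - g' (y + x)) := by ring
  rw [h2]
  refine (abs_add_le _ _).trans (add_le_add ?_ ?_)
  · rw [abs_mul]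
    exact mul_le_of_le_one_right (abs_nonneg _) (hg _)
  · rw [abs_mul]
    exact mul_le_of_le_one_left (abs_nonneg _) (hf' _)

/-- The correlation of two functions with values in `[-1, 1]` is in `[-1, 1]`. -/
theorem corr_mem {p : ℕ} [NeZero p] (f g : ZMod p → ℝ) (hf : ∀ x, |f x| ≤ 1)
    (hg : ∀ x, |g x| ≤ 1) (x : ZMod p) :
    (∑ y, f y * g (y + x)) / p ∈ Set.Icc (-1 : ℝ) 1 := by
  have hp : (0 : ℝ) < p := by exact_mod_cast Nat.pos_of_ne_zero (NeZero.ne p)
  have h1 : |∑ y, f y * g (y + x)| ≤ p := by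
    refine (Finset.abs_sum_le_sum_abs _ _).trans ?_
    have h2 : ∀ y ∈ (univ : Finset (ZMod p)), |f y * g (y + x)| ≤ 1 := by
      intro y _
      rw [abs_mul]
      exact mul_le_one₀ (hf _) (abs_nonneg _) (hg _)
    refine (Finset.sum_le_sum h2).trans ?_
    simp [ZMod.card]
  have h3 : |(∑ y, f y * g (y + x)) / p| ≤ 1 := by
    rw [abs_div, abs_of_pos hp, div_le_one hp]
    exact h1
  exact abs_le.1 h3

/-- The mean of a convex function over a symmetric interval is at least its value at the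
centre. -/
theorem hh {Φ : ℝ → ℝ} (hΦ : ConvexOn ℝ Set.univ Φ) (hc : Continuous Φ) (c h : ℝ) (hh : 0 ≤ h) :
    2 * h * Φ c ≤ ∫ t in (c - h)..(c + h), Φ t := by
  have h1 : ∫ t in (c - h)..(c + h), Φ (2 * c - t) = ∫ t in (c - h)..(c + h), Φ t := by
    rw [intervalIntegral.integral_comp_sub_left (fun t => Φ t) (2 * c)]
    congr 1 <;> ring
  have h2 : ∫ t in (c - h)..(c + h), (Φ t + Φ (2 * c - t)) =
      2 * ∫ t in (c - h)..(c + h), Φ t := by
    have hc2 : Continuous fun t => Φ (2 * c - t) :=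
      hc.comp (continuous_const.sub continuous_id)
    rw [intervalIntegral.integral_add (hc.intervalIntegrable _ _)
      (hc2.intervalIntegrable _ _), h1]
    ring
  have h3 : ∫ _ in (c - h)..(c + h), (2 * Φ c) ≤ ∫ t in (c - h)..(c + h), (Φ t + Φ (2 * c - t)) := by
    refine intervalIntegral.integral_mono (by linarith) intervalIntegrable_const
      ((hc.add (hc.comp (continuous_const.sub continuous_id))).intervalIntegrable _ _) ?_
    intro t
    have h4 := hΦ.2 (Set.mem_univ t) (Set.mem_univ (2 * c - t)) (by norm_num : (0 : ℝ) ≤ 1 / 2)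
      (by norm_num : (0 : ℝ) ≤ 1 / 2) (by norm_num)
    simp only [smul_eq_mul] at h4
    have h5 : 1 / 2 * t + 1 / 2 * (2 * c - t) = c := by ring
    rw [h5] at h4
    change 2 * Φ c ≤ Φ t + Φ (2 * c - t)
    linarith
  rw [intervalIntegral.integral_const, smul_eq_mul, h2] at h3
  linarith

/-- The sum over the grid is at most the integral. -/
theorem grid {Φ : ℝ → ℝ} (hΦ : ConvexOn ℝ Set.univ Φ) (hc : Continuous Φ) (m : ℕ) (p : ℝ)
    (hp : 0 < p) :
    ∑ r ∈ range m, 4 / p * Φ ((4 * r + 2) / p - 1) ≤ ∫ t in (-1 : ℝ)..(4 * m / p - 1), Φ t := by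
  have h1 := intervalIntegral.sum_integral_adjacent_intervals (f := Φ) (μ := MeasureTheory.volume)
    (a := fun r : ℕ => 4 * (r : ℝ) / p - 1) (n := m) (fun k _ => hc.intervalIntegrable _ _)
  have h2 : (4 * ((0 : ℕ) : ℝ) / p - 1) = -1 := by simp
  simp only [h2] at h1
  rw [← h1]
  refine Finset.sum_le_sum fun r _ => ?_
  have h3 := hh hΦ hc ((4 * r + 2) / p - 1) (2 / p) (by positivity)
  have h4 : (4 * (r : ℝ) + 2) / p - 1 - 2 / p = 4 * r / p - 1 := by ring
  have h5 : (4 * (r : ℝ) + 2) / p - 1 + 2 / p = 4 * ((r + 1 : ℕ) : ℝ) / p - 1 := by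
    push_cast
    ring
  rw [h4, h5] at h3
  refine le_trans (le_of_eq ?_) h3
  ring

theorem pf_RIE (h : T_EXT) : T_RIE := by
  intro Φ hΦ
  have hcont : Continuous Φ := by
    rw [← continuousOn_univ]
    exact hΦ.continuousOn isOpen_univ
  obtain ⟨B, hB⟩ := (isCompact_Icc (a := (-1 : ℝ)) (b := 1)).exists_bound_of_continuousOn
    hcont.continuousOn
  obtain ⟨K, hK⟩ := (hΦ.locallyLipschitz.locallyLipschitzOn
    (s := Set.Icc (-1 : ℝ) 1)).exists_lipschitzOnWith_of_compact isCompact_Icc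
  have hB0 : 0 ≤ B := (norm_nonneg _).trans (hB 0 (by norm_num))
  have hBa : ∀ t ∈ Set.Icc (-1 : ℝ) 1, |Φ t| ≤ B := fun t ht => by
    rw [← Real.norm_eq_abs]
    exact hB t ht
  refine ⟨2 * B + 2 * K + 1, by positivity, ?_⟩
  intro p hpp κ f g hp hκ hf hg hfs hgs
  have : NeZero p := ⟨by omega⟩
  have hpR : (0 : ℝ) < p := by exact_mod_cast (by omega : 0 < p)
  have hodd : p % 2 = 1 := by
    rcases hpp.out.eq_two_or_odd with h2 | h2
    · omega
    · exact h2
  obtain ⟨m, hm⟩ : ∃ m, p = 2 * m + 1 := ⟨p / 2, by omega⟩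
  have hmR : (p : ℝ) = 2 * m + 1 := by exact_mod_cast hm
  have hadj : ∀ u : ZMod p → ℝ, (∀ x, |u x| ≤ 1) → |∑ x, u x| ≤ κ * p →
      ∃ a : ZMod p → ℝ, (∀ x, 0 ≤ a x ∧ a x ≤ 1) ∧ ∑ x, a x = m ∧
        ∑ x, |u x - (2 * a x - 1)| ≤ 1 + κ * p := by
    intro u hu hus
    obtain ⟨a, ha1, ha2, ha3⟩ := adj (fun x => (1 + u x) / 2) (m : ℝ)
      (fun x => ⟨by linarith [(abs_le.1 (hu x)).1], by linarith [(abs_le.1 (hu x)).2]⟩)
      (Nat.cast_nonneg m) (by rw [ZMod.card, hmR]; linarith [(Nat.cast_nonneg m : (0 : ℝ) ≤ m)])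
    refine ⟨a, ha1, ha2, ?_⟩
    have e1 : ∀ x, |u x - (2 * a x - 1)| = 2 * |(1 + u x) / 2 - a x| := by
      intro x
      have e0 : u x - (2 * a x - 1) = 2 * ((1 + u x) / 2 - a x) := by ring
      rw [e0, abs_mul, abs_two]
    have e2 : ∑ x, (1 + u x) / 2 = (p + ∑ x, u x) / 2 := by
      rw [← Finset.sum_div, Finset.sum_add_distrib]
      simp [ZMod.card]
    simp only [e1]
    rw [← Finset.mul_sum, ha3, e2, hmR]
    have e3 : (2 * (m : ℝ) + 1 + ∑ x, u x) / 2 - m = (1 + ∑ x, u x) / 2 := by ring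
    rw [e3, abs_div, abs_two]
    have e4 : |1 + ∑ x, u x| ≤ 1 + |∑ x, u x| := by
      refine (abs_add_le _ _).trans ?_
      rw [abs_one]
    rw [← hmR]
    linarith
  obtain ⟨a, ha1, ha2, ha3⟩ := hadj f hf hfs
  obtain ⟨b, hb1, hb2, hb3⟩ := hadj g hg hgs
  have ha4 : ∀ x, |2 * a x - 1| ≤ 1 := fun x =>
    abs_le.2 ⟨by linarith [(ha1 x).1], by linarith [(ha1 x).2]⟩
  have hb4 : ∀ x, |2 * b x - 1| ≤ 1 := fun x =>
    abs_le.2 ⟨by linarith [(hb1 x).1], by linarith [(hb1 x).2]⟩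
  set ph : ℝ → ℝ := fun r => Φ (4 / p * r + (1 - 2 * m) / p) with hph
  have hphc : ConvexOn ℝ Set.univ ph := by
    refine ⟨convex_univ, fun x _ y _ s t hs ht hst => ?_⟩
    have h1 := hΦ.2 (Set.mem_univ (4 / p * x + (1 - 2 * m) / p))
      (Set.mem_univ (4 / p * y + (1 - 2 * m) / p)) hs ht hst
    simp only [smul_eq_mul] at h1 ⊢
    have h2 : s * (4 / p * x + (1 - 2 * m) / p) + t * (4 / p * y + (1 - 2 * m) / p) =
        4 / p * (s * x + t * y) + (1 - 2 * m) / p := by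
      have h3 : s * (4 / p * x + (1 - 2 * m) / p) + t * (4 / p * y + (1 - 2 * m) / p) =
        4 / p * (s * x + t * y) + (s + t) * ((1 - 2 * m) / p) := by ring
      rw [h3, hst, one_mul]
    rw [h2] at h1
    exact h1
  have hext := h p m a b ph hm ha1 hb1 ha2 hb2 hphc
  have hkey : ∀ x : ZMod p, Φ ((∑ y, f y * g (y + x)) / p) ≤
      ph (∑ y, a y * b (y + x)) + K * (2 * (κ + 1 / p)) := by
    intro x
    have h1 : ∑ y, (2 * a y - 1) * (2 * b (y + x) - 1) =
        4 * ∑ y, a y * b (y + x) + (1 - 2 * m) := by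
      have e1 : ∀ y, (2 * a y - 1) * (2 * b (y + x) - 1) =
          4 * (a y * b (y + x)) - 2 * a y - 2 * b (y + x) + 1 := fun y => by ring
      have hbx : ∑ y, b (y + x) = ∑ y, b y := Equiv.sum_comp (Equiv.addRight x) b
      simp only [e1]
      rw [Finset.sum_add_distrib, Finset.sum_sub_distrib, Finset.sum_sub_distrib,
        ← Finset.mul_sum, ← Finset.mul_sum, ← Finset.mul_sum, ha2,
        hbx, hb2]
      simp only [Finset.sum_const, Finset.card_univ, ZMod.card, nsmul_eq_mul, mul_one]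
      rw [hmR]
      ring
    have h2 := corr_diff f g (fun y => 2 * a y - 1) (fun y => 2 * b y - 1) hg ha4 x
    have h3 : 4 / p * ∑ y, a y * b (y + x) + (1 - 2 * m) / p =
        (∑ y, (2 * a y - 1) * (2 * b (y + x) - 1)) / p := by
      rw [h1]
      ring
    have h4 := corr_mem f g hf hg x
    have h5 := corr_mem (fun y => 2 * a y - 1) (fun y => 2 * b y - 1) ha4 hb4 x
    have h6 := hK.dist_le_mul _ h4 _ h5
    rw [Real.dist_eq, Real.dist_eq, ← sub_div, abs_div, abs_of_pos hpR] at h6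
    have h7 : |∑ y, f y * g (y + x) - ∑ y, (2 * a y - 1) * (2 * b (y + x) - 1)| / p ≤
        2 * (κ + 1 / p) := by
      rw [div_le_iff₀ hpR]
      have h8 : 2 * (κ + 1 / p) * p = 2 * (1 + κ * p) := by
        field_simp
        ring
      rw [h8]
      linarith
    have h9 : (K : ℝ) * (|∑ y, f y * g (y + x) - ∑ y, (2 * a y - 1) * (2 * b (y + x) - 1)| / p) ≤
        K * (2 * (κ + 1 / p)) := mul_le_mul_of_nonneg_left h7 K.coe_nonneg
    have h10 := (le_abs_self _).trans (h6.trans h9)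
    simp only [hph]
    rw [h3]
    linarith
  have hsum : ∑ x : ZMod p, Φ ((∑ y, f y * g (y + x)) / p) ≤
      ∑ r ∈ range m, 2 * ph r + ph m + p * (K * (2 * (κ + 1 / p))) := by
    refine (Finset.sum_le_sum fun x _ => hkey x).trans ?_
    rw [Finset.sum_add_distrib]
    refine add_le_add hext (le_of_eq ?_)
    simp [ZMod.card]
  have hgrid := grid hΦ hcont m p hpR
  have hph1 : ∀ r : ℕ, ph r = Φ ((4 * r + 2) / p - 1) := by
    intro r
    simp only [hph]
    congr 1
    rw [eq_sub_iff_add_eq]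
    have h1 : 4 / (p : ℝ) * r + (1 - 2 * m) / p + 1 = (4 * r + 2 + (p - (2 * m + 1))) / p := by
      field_simp
      ring
    rw [h1, hmR, sub_self, add_zero]
  have hphm : ph m = Φ 1 := by
    rw [hph1 m]
    congr 1
    have h1 : (4 * (m : ℝ) + 2) = 2 * p := by
      rw [hmR]
      ring
    rw [h1]
    field_simp
    ring
  have hend : 4 * (m : ℝ) / p - 1 = 1 - 2 / p := by
    have h1 : 4 * (m : ℝ) = 2 * p - 2 := by
      rw [hmR]
      ring
    rw [h1]
    field_simp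
    ring
  rw [hend] at hgrid
  have h2p : 2 / (p : ℝ) ≤ 1 := by
    rw [div_le_one hpR]
    exact_mod_cast hp.le
  have h2p0 : 0 < 2 / (p : ℝ) := by positivity
  have hsplit : ∫ t in (-1 : ℝ)..(1 - 2 / p), Φ t =
      (∫ t in (-1 : ℝ)..1, Φ t) - ∫ t in (1 - 2 / (p : ℝ))..1, Φ t := by
    rw [eq_sub_iff_add_eq]
    exact intervalIntegral.integral_add_adjacent_intervals (hcont.intervalIntegrable _ _)
      (hcont.intervalIntegrable _ _)
  have htail : -(∫ t in (1 - 2 / (p : ℝ))..1, Φ t) ≤ B * (2 / p) := by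
    have h1 := intervalIntegral.norm_integral_le_of_norm_le_const (a := 1 - 2 / (p : ℝ)) (b := 1)
      (f := Φ) (C := B) (fun t ht => by
        rw [Set.uIoc_of_le (by linarith)] at ht
        exact hB t ⟨by linarith [ht.1], ht.2⟩)
    have h2 : |1 - (1 - 2 / (p : ℝ))| = 2 / p := by
      rw [abs_of_nonneg (by linarith)]
      ring
    rw [h2] at h1
    exact (neg_le_abs _).trans h1
  have hcU : cU Φ 1 = (∫ t in (-1 : ℝ)..1, Φ t) / 2 := by
    unfold cU
    simp only [one_mul]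
  have hS : ∑ r ∈ range m, 2 * ph r ≤ p * (cU Φ 1 + B / p) := by
    have h1 : ∑ r ∈ range m, 2 * ph r =
        p / 2 * ∑ r ∈ range m, 4 / p * Φ ((4 * r + 2) / p - 1) := by
      rw [Finset.mul_sum]
      refine Finset.sum_congr rfl fun r _ => ?_
      rw [hph1 r]
      field_simp
      ring
    rw [h1]
    have h2 : (p : ℝ) / 2 * ∑ r ∈ range m, 4 / p * Φ ((4 * r + 2) / p - 1) ≤
        p / 2 * ((∫ t in (-1 : ℝ)..1, Φ t) + B * (2 / p)) :=
      mul_le_mul_of_nonneg_left (hgrid.trans (by rw [hsplit]; linarith)) (by positivity)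
    refine h2.trans (le_of_eq ?_)
    rw [hcU]
    ring
  have hphm2 : ph m ≤ B := by
    rw [hphm]
    exact (le_abs_self _).trans (hBa 1 (by norm_num))
  rw [div_le_iff₀ hpR]
  have hfin : p * (cU Φ 1 + B / p) + B + p * (K * (2 * (κ + 1 / p))) ≤
      (cU Φ 1 + (2 * B + 2 * K + 1) * (κ + 1 / p)) * p := by
    have h1 : (cU Φ 1 + (2 * B + 2 * K + 1) * (κ + 1 / p)) * p =
        p * (cU Φ 1 + B / p) + B + p * (K * (2 * (κ + 1 / p))) + (2 * B + 1) * κ * p + 1 := by
      field_simp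
      ring
    rw [h1]
    have h2 : 0 ≤ (2 * B + 1) * κ * p := by positivity
    linarith
  linarith

end Pool.Agent.H75.X
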